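import Pool.Agent.MP_aa6c6a_nt.H72.D145

namespace Pool.Agent.MP_aa6c6a_nt.H72

theorem d149 : ∀ k, 3585 ≤ k → k < 3689 → Ok k :=
  chkList_ok [
    23, 61, 7, 17, 53, 61, 0, 0, 199, 11, 157, 5, 20551, 947183, 11, 0, 0, 0, 0, 11, 17, 0,
    76105343, 7, 4436581, 11, 13, 62137, 73, 11, 16963, 11, 17891, 29, 28506197, 167, 11, 7, 83,
    0, 25314461, 11, 103, 13, 0, 0, 5, 11, 156113077, 659, 1063, 653, 0, 0, 17, 0, 113363, 59,
    337, 53, 23, 227, 52859, 14387, 11, 9829, 38317, 149, 37, 11, 337, 0, 383, 11, 163981, 11,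
    0, 257, 0, 61, 0, 3593, 23, 109, 8014631, 11, 5, 23, 139, 461, 5059, 5, 0, 0, 431, 270287,
    19, 449, 149, 0, 103, 100769, 43, 861013]
    3585 3689 (by decide +kernel) (by decide +kernel)

end Pool.Agent.MP_aa6c6a_nt.H72
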