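import Pool.Agent.MP_aa6c6a_nt.H72.D146

namespace Pool.Agent.MP_aa6c6a_nt.H72

theorem d150 : ∀ k, 3689 ≤ k → k < 3847 → Ok k :=
  chkList_ok [
    0, 1483, 5, 37761271, 11, 0, 0, 40111, 59, 11, 56632469, 0, 47, 13, 529747, 11, 341854489,
    241, 50675423, 643, 11, 173, 1747, 107, 1429, 277, 8269, 5, 137, 71, 79, 11, 2080808221, 89,
    857, 61, 43, 11, 197, 163, 499, 67, 5, 19, 439, 1009, 11, 34031, 0, 4021, 0, 37, 101, 0,
    101, 17, 10601, 521, 29, 1217, 43, 241, 5, 0, 1907, 12527, 19, 47, 0, 49367, 166931, 67, 5,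
    7, 43, 12927269, 19, 31, 13, 11, 7, 19, 1721, 157, 43, 36621317, 659, 199, 0, 9207389, 29,
    8893, 0, 4799, 100801, 101, 0, 133163081, 34939, 53681, 719, 311, 0, 29, 13, 7823, 17, 5,
    71, 0, 0, 850351, 11, 137, 11, 109781377, 0, 0, 0, 19, 17, 41201, 5, 113, 59, 101, 499,
    168633301, 224177, 7, 233, 53, 563, 314305987, 84631, 1597, 11, 277, 907, 31, 41, 809, 7127,
    7, 229, 1103, 29, 5, 367, 37, 9811, 51674011, 241, 5689, 173, 17, 55603, 61]
    3689 3847 (by decide +kernel) (by decide +kernel)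

end Pool.Agent.MP_aa6c6a_nt.H72
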