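import Pool.Agent.MP_aa6c6a_nt.H72.D148
import Pool.Agent.MP_aa6c6a_nt.H72.D149
import Pool.Agent.MP_aa6c6a_nt.H72.D150
import Pool.Agent.MP_aa6c6a_nt.H72.D151

namespace Pool.Agent.MP_aa6c6a_nt.H72

theorem all_ok : ∀ k, 1 ≤ k → k < 4722 → Ok k :=
  glue d0 <|
  glue d1 <|
  glue d2 <|
  glue d3 <|
  glue d4 <|
  glue d5 <|
  glue d6 <|
  glue d7 <|
  glue d8 <|
  glue d9 <|
  glue d10 <|
  glue d11 <|
  glue d12 <|
  glue d13 <|
  glue d14 <|
  glue d15 <|
  glue d16 <|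
  glue d17 <|
  glue d18 <|
  glue d19 <|
  glue d20 <|
  glue d21 <|
  glue d22 <|
  glue d23 <|
  glue d24 <|
  glue d25 <|
  glue d26 <|
  glue d27 <|
  glue d28 <|
  glue d29 <|
  glue d30 <|
  glue d31 <|
  glue d32 <|
  glue d33 <|
  glue d34 <|
  glue d35 <|
  glue d36 <|
  glue d37 <|
  glue d38 <|
  glue d39 <|
  glue d40 <|
  glue d41 <|
  glue d42 <|
  glue d43 <|
  glue d44 <|
  glue d45 <|
  glue d46 <|
  glue d47 <|
  glue d48 <|
  glue d49 <|
  glue d50 <|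
  glue d51 <|
  glue d52 <|
  glue d53 <|
  glue d54 <|
  glue d55 <|
  glue d56 <|
  glue d57 <|
  glue d58 <|
  glue d59 <|
  glue d60 <|
  glue d61 <|
  glue d62 <|
  glue d63 <|
  glue d64 <|
  glue d65 <|
  glue d66 <|
  glue d67 <|
  glue d68 <|
  glue d69 <|
  glue d70 <|
  glue d71 <|
  glue d72 <|
  glue d73 <|
  glue d74 <|
  glue d75 <|
  glue d76 <|
  glue d77 <|
  glue d78 <|
  glue d79 <|
  glue d80 <|
  glue d81 <|
  glue d82 <|
  glue d83 <|
  glue d84 <|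
  glue d85 <|
  glue d86 <|
  glue d87 <|
  glue d88 <|
  glue d89 <|
  glue d90 <|
  glue d91 <|
  glue d92 <|
  glue d93 <|
  glue d94 <|
  glue d95 <|
  glue d96 <|
  glue d97 <|
  glue d98 <|
  glue d99 <|
  glue d100 <|
  glue d101 <|
  glue d102 <|
  glue d103 <|
  glue d104 <|
  glue d105 <|
  glue d106 <|
  glue d107 <|
  glue d108 <|
  glue d109 <|
  glue d110 <|
  glue d111 <|
  glue d112 <|
  glue d113 <|
  glue d114 <|
  glue d115 <|
  glue d116 <|
  glue d117 <|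
  glue d118 <|
  glue d119 <|
  glue d120 <|
  glue d121 <|
  glue d122 <|
  glue d123 <|
  glue d124 <|
  glue d125 <|
  glue d126 <|
  glue d127 <|
  glue d128 <|
  glue d129 <|
  glue d130 <|
  glue d131 <|
  glue d132 <|
  glue d133 <|
  glue d134 <|
  glue d135 <|
  glue d136 <|
  glue d137 <|
  glue d138 <|
  glue d139 <|
  glue d140 <|
  glue d141 <|
  glue d142 <|
  glue d143 <|
  glue d144 <|
  glue d145 <|
  glue d146 <|
  glue d147 <|
  glue d148 <|
  glue d149 <|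
  glue d150 <|
  d151

end Pool.Agent.MP_aa6c6a_nt.H72
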