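import Pool.Agent.MP_aa6c6a_nt.H72.Defs

namespace Pool.Agent.MP_aa6c6a_nt.H72

theorem d0 : ∀ k, 1 ≤ k → k < 53 → Ok k :=
  chkList_ok [
    65537, 30403, 1021, 41, 61, 13159, 1077161, 0, 19661, 23, 199, 1237, 0, 61, 593, 0, 7, 11,
    2543, 11527, 1543, 2221, 211, 11, 402214093, 131, 1783, 0, 11, 11, 5, 7303651, 47, 19, 149,
    25395817, 0, 17, 983, 33487, 47, 1607, 26480191, 113, 41, 11, 37649, 279211, 13, 89, 29, 7]
    1 53 (by decide +kernel) (by decide +kernel)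

end Pool.Agent.MP_aa6c6a_nt.H72
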