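import Pool.Agent.MP_aa6c6a_nt.H72.Defs

namespace Pool.Agent.MP_aa6c6a_nt.H72

theorem d1 : ∀ k, 53 ≤ k → k < 89 → Ok k :=
  chkList_ok [
    0, 461, 16811, 262166279, 53, 37, 29, 23, 19739763787, 4531789, 0, 1117, 23, 47, 421, 5531,
    2131, 19, 5, 0, 7, 11, 97, 149, 37, 0, 11, 24495995683, 0, 0, 6337, 11, 127, 1711153, 443,
    43]
    53 89 (by decide +kernel) (by decide +kernel)

end Pool.Agent.MP_aa6c6a_nt.H72
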