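import Pool.Agent.MP_aa6c6a_nt.H72.Defs

namespace Pool.Agent.MP_aa6c6a_nt.H72

theorem d3 : ∀ k, 91 ≤ k → k < 109 → Ok k :=
  chkList_ok [
    0, 435300097, 29, 11, 103, 2503, 20056973, 8291, 0, 13009, 1931, 1723, 1987, 937, 461, 11,
    19, 31]
    91 109 (by decide +kernel) (by decide +kernel)

end Pool.Agent.MP_aa6c6a_nt.H72
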