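import Pool.Agent.MP_aa6c6a_nt.H72.D000

namespace Pool.Agent.MP_aa6c6a_nt.H72

theorem d4 : ∀ k, 109 ≤ k → k < 119 → Ok k :=
  chkList_ok [
    0, 641, 2903, 2221, 79, 32971, 83, 11, 331, 282059]
    109 119 (by decide +kernel) (by decide +kernel)

end Pool.Agent.MP_aa6c6a_nt.H72
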