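import Pool.Agent.MP_aa6c6a_nt.H72.D001

namespace Pool.Agent.MP_aa6c6a_nt.H72

theorem d5 : ∀ k, 119 ≤ k → k < 121 → Ok k :=
  chkList_ok [
    0, 3701]
    119 121 (by decide +kernel) (by decide +kernel)

end Pool.Agent.MP_aa6c6a_nt.H72
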