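import Pool.Agent.MP_aa6c6a_nt.H72.D002

namespace Pool.Agent.MP_aa6c6a_nt.H72

theorem d6 : ∀ k, 121 ≤ k → k < 129 → Ok k :=
  chkList_ok [
    0, 0, 11, 107, 1723, 0, 11, 281]
    121 129 (by decide +kernel) (by decide +kernel)

end Pool.Agent.MP_aa6c6a_nt.H72
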