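import Pool.Agent.MP_aa6c6a_nt.H72.D003

namespace Pool.Agent.MP_aa6c6a_nt.H72

theorem d7 : ∀ k, 129 ≤ k → k < 191 → Ok k :=
  chkList_ok [
    0, 14033, 5, 1217296603, 19777, 0, 459293, 307, 13903, 157, 4153, 211, 19, 367, 23, 797,
    103, 2861, 409, 18371001797, 61, 163061, 514237081, 23, 6049246633, 29, 17, 0, 7, 23,
    327347, 0, 43, 0, 223, 179, 11833, 2777, 149759, 378793, 709, 47, 1794523, 2887, 11,
    103867367, 1204219, 31, 463, 23, 19, 1123, 21313, 26849, 1201, 11, 857, 3169, 353, 9173,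
    46681365727, 59]
    129 191 (by decide +kernel) (by decide +kernel)

end Pool.Agent.MP_aa6c6a_nt.H72
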