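import Pool.Agent.MP_aa6c6a_nt.H72.D005

namespace Pool.Agent.MP_aa6c6a_nt.H72

theorem d9 : ∀ k, 193 ≤ k → k < 227 → Ok k :=
  chkList_ok [
    0, 193, 1171, 15817, 10361453, 0, 7, 313, 83, 0, 53, 347, 13, 9416423, 39070523, 269, 29,
    131, 11, 127037, 31, 3389, 223, 42649, 11, 13, 563, 971, 1613, 89, 211, 23, 17, 45641]
    193 227 (by decide +kernel) (by decide +kernel)

end Pool.Agent.MP_aa6c6a_nt.H72
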