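import Pool.Agent.MP_aa6c6a_nt.H72.D006

namespace Pool.Agent.MP_aa6c6a_nt.H72

theorem d10 : ∀ k, 227 ≤ k → k < 246 → Ok k :=
  chkList_ok [
    0, 41, 19079, 12487, 0, 79, 11, 463, 1653923, 5, 11, 127, 48523, 595817, 7, 13931, 19, 31,
    3041]
    227 246 (by decide +kernel) (by decide +kernel)

end Pool.Agent.MP_aa6c6a_nt.H72
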