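import Pool.Agent.MP_aa6c6a_nt.H72.D007

namespace Pool.Agent.MP_aa6c6a_nt.H72

theorem d11 : ∀ k, 246 ≤ k → k < 262 → Ok k :=
  chkList_ok [
    0, 23, 7, 15859, 41, 11799869, 911, 0, 3313, 19, 2113, 251, 4369732217, 11, 631, 443]
    246 262 (by decide +kernel) (by decide +kernel)

end Pool.Agent.MP_aa6c6a_nt.H72
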