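import Pool.Agent.MP_aa6c6a_nt.H72.D008

namespace Pool.Agent.MP_aa6c6a_nt.H72

theorem d12 : ∀ k, 262 ≤ k → k < 301 → Ok k :=
  chkList_ok [
    7669301, 25050241, 41, 139, 739799, 29, 317, 59, 1213, 5, 3067, 17, 29, 89, 293, 7229,
    8659513, 0, 547, 56828792623, 88801, 17168709091, 4793, 991, 349211, 19, 538049, 1922185549,
    43, 22027, 49391, 11, 79, 79, 13, 7, 397, 11, 487]
    262 301 (by decide +kernel) (by decide +kernel)

end Pool.Agent.MP_aa6c6a_nt.H72
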