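import Pool.Agent.MP_aa6c6a_nt.H72.D010

namespace Pool.Agent.MP_aa6c6a_nt.H72

theorem d14 : ∀ k, 302 ≤ k → k < 309 → Ok k :=
  chkList_ok [
    0, 0, 4553677, 3463, 1405367, 5243597, 7337269]
    302 309 (by decide +kernel) (by decide +kernel)

end Pool.Agent.MP_aa6c6a_nt.H72
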