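import Pool.Agent.MP_aa6c6a_nt.H72.D011

namespace Pool.Agent.MP_aa6c6a_nt.H72

theorem d15 : ∀ k, 309 ≤ k → k < 323 → Ok k :=
  chkList_ok [
    0, 1493, 7, 239, 179, 5791, 211, 5, 37, 52666463, 198049361, 974009, 0, 13]
    309 323 (by decide +kernel) (by decide +kernel)

end Pool.Agent.MP_aa6c6a_nt.H72
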