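import Pool.Agent.MP_aa6c6a_nt.H72.D012

namespace Pool.Agent.MP_aa6c6a_nt.H72

theorem d16 : ∀ k, 323 ≤ k → k < 344 → Ok k :=
  chkList_ok [
    0, 10193, 7, 1399, 724777, 29, 4799, 1867, 5, 11, 315448949, 59, 13, 14557, 11, 1481, 10259,
    6949, 3187, 23, 69827]
    323 344 (by decide +kernel) (by decide +kernel)

end Pool.Agent.MP_aa6c6a_nt.H72
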