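import Pool.Agent.MP_aa6c6a_nt.H72.D013

namespace Pool.Agent.MP_aa6c6a_nt.H72

theorem d17 : ∀ k, 344 ≤ k → k < 379 → Ok k :=
  chkList_ok [
    0, 5598833, 61, 4931, 816971, 257, 19, 2329053523, 29, 7, 11, 16529, 100166327, 61, 17,
    3391, 1303, 1753, 30839, 1578361, 279731, 127, 43, 641, 0, 16025327, 1336637, 43, 0,
    2090461, 2311, 53, 293, 67, 2741]
    344 379 (by decide +kernel) (by decide +kernel)

end Pool.Agent.MP_aa6c6a_nt.H72
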