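import Pool.Agent.MP_aa6c6a_nt.H72.D016

namespace Pool.Agent.MP_aa6c6a_nt.H72

theorem d20 : ∀ k, 389 ≤ k → k < 405 → Ok k :=
  chkList_ok [
    0, 29, 977927, 233, 952921, 71, 89, 331, 569, 727, 47, 4649, 71, 11, 409, 5857]
    389 405 (by decide +kernel) (by decide +kernel)

end Pool.Agent.MP_aa6c6a_nt.H72
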