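import Pool.Agent.MP_aa6c6a_nt.H72.D017

namespace Pool.Agent.MP_aa6c6a_nt.H72

theorem d21 : ∀ k, 405 ≤ k → k < 424 → Ok k :=
  chkList_ok [
    0, 47, 881, 571, 17, 101, 23, 0, 313981, 6277, 2252900059, 7, 0, 61, 11287, 375212993, 101,
    81097, 42473]
    405 424 (by decide +kernel) (by decide +kernel)

end Pool.Agent.MP_aa6c6a_nt.H72
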