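import Pool.Agent.MP_aa6c6a_nt.H72.D018

namespace Pool.Agent.MP_aa6c6a_nt.H72

theorem d22 : ∀ k, 424 ≤ k → k < 455 → Ok k :=
  chkList_ok [
    0, 2202913, 101, 2689, 0, 101503, 21499, 11, 439, 53, 37, 491, 5, 7, 461, 19, 31, 20149,
    1999, 26717, 139, 619640237, 241, 23, 653, 103, 83, 5, 79, 6449, 491]
    424 455 (by decide +kernel) (by decide +kernel)

end Pool.Agent.MP_aa6c6a_nt.H72
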