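import Pool.Agent.MP_aa6c6a_nt.H72.D019

namespace Pool.Agent.MP_aa6c6a_nt.H72

theorem d23 : ∀ k, 455 ≤ k → k < 470 → Ok k :=
  chkList_ok [
    0, 461, 151429, 438616963, 11543767, 499, 47, 1433, 4157, 109, 26203, 79, 1646361539, 19,
    3637]
    455 470 (by decide +kernel) (by decide +kernel)

end Pool.Agent.MP_aa6c6a_nt.H72
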