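import Pool.Agent.MP_aa6c6a_nt.H72.D020

namespace Pool.Agent.MP_aa6c6a_nt.H72

theorem d24 : ∀ k, 470 ≤ k → k < 501 → Ok k :=
  chkList_ok [
    0, 1484386391, 7, 509, 41, 43, 269, 25307, 127, 11, 74719, 42709, 883, 202327, 181, 1617437,
    7, 19, 53, 4399987, 397, 5, 54907, 7, 0, 193, 0, 388697, 29, 800441, 7]
    470 501 (by decide +kernel) (by decide +kernel)

end Pool.Agent.MP_aa6c6a_nt.H72
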