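import Pool.Agent.MP_aa6c6a_nt.H72.D021

namespace Pool.Agent.MP_aa6c6a_nt.H72

theorem d25 : ∀ k, 501 ≤ k → k < 509 → Ok k :=
  chkList_ok [
    0, 19, 11, 5202479, 4791911, 19, 547, 863916499]
    501 509 (by decide +kernel) (by decide +kernel)

end Pool.Agent.MP_aa6c6a_nt.H72
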