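import Pool.Agent.MP_aa6c6a_nt.H72.D022

namespace Pool.Agent.MP_aa6c6a_nt.H72

theorem d26 : ∀ k, 509 ≤ k → k < 513 → Ok k :=
  chkList_ok [
    0, 311, 5, 181537]
    509 513 (by decide +kernel) (by decide +kernel)

end Pool.Agent.MP_aa6c6a_nt.H72
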