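import Pool.Agent.MP_aa6c6a_nt.H72.D023

namespace Pool.Agent.MP_aa6c6a_nt.H72

theorem d27 : ∀ k, 513 ≤ k → k < 537 → Ok k :=
  chkList_ok [
    0, 6551, 29, 1153, 307, 0, 281, 114451, 19, 67, 1015624889, 1291, 179, 107, 29, 1493208083,
    130829, 13, 75678817, 0, 31, 11, 29, 5387]
    513 537 (by decide +kernel) (by decide +kernel)

end Pool.Agent.MP_aa6c6a_nt.H72
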