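import Pool.Agent.MP_aa6c6a_nt.H72.D024

namespace Pool.Agent.MP_aa6c6a_nt.H72

theorem d28 : ∀ k, 537 ≤ k → k < 557 → Ok k :=
  chkList_ok [
    0, 1109, 199, 0, 11, 80387, 47, 23, 347, 11, 887, 0, 114102949, 101, 1103, 0, 27529, 304021,
    15643, 5]
    537 557 (by decide +kernel) (by decide +kernel)

end Pool.Agent.MP_aa6c6a_nt.H72
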