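import Pool.Agent.MP_aa6c6a_nt.H72.D025

namespace Pool.Agent.MP_aa6c6a_nt.H72

theorem d29 : ∀ k, 557 ≤ k → k < 583 → Ok k :=
  chkList_ok [
    0, 5715071, 239644033, 0, 157, 709, 278651, 83, 10169, 50741, 14628937, 2672303, 13337,
    4507670483, 10321, 2584279, 29, 331183, 1231, 0, 54331243, 89, 199, 23, 2185871, 19]
    557 583 (by decide +kernel) (by decide +kernel)

end Pool.Agent.MP_aa6c6a_nt.H72
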