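import Pool.Agent.MP_aa6c6a_nt.H72.D027

namespace Pool.Agent.MP_aa6c6a_nt.H72

theorem d31 : ∀ k, 584 ≤ k → k < 607 → Ok k :=
  chkList_ok [
    7, 11, 0, 691, 67, 11, 11, 0, 0, 107, 839, 37, 5, 61, 1801, 4809881, 543971, 19, 9133, 19,
    19613527, 7, 239333]
    584 607 (by decide +kernel) (by decide +kernel)

end Pool.Agent.MP_aa6c6a_nt.H72
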