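import Pool.Agent.MP_aa6c6a_nt.H72.D028

namespace Pool.Agent.MP_aa6c6a_nt.H72

theorem d32 : ∀ k, 607 ≤ k → k < 620 → Ok k :=
  chkList_ok [
    0, 4127, 109, 101, 5, 6373, 17, 0, 29, 17, 418207, 23535779, 521]
    607 620 (by decide +kernel) (by decide +kernel)

end Pool.Agent.MP_aa6c6a_nt.H72
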