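import Pool.Agent.MP_aa6c6a_nt.H72.D029

namespace Pool.Agent.MP_aa6c6a_nt.H72

theorem d33 : ∀ k, 620 ≤ k → k < 643 → Ok k :=
  chkList_ok [
    0, 1877, 12343, 18439, 727, 2901985337, 379, 373, 0, 11, 59, 5, 2633, 83, 1301, 2273, 179,
    359, 1621, 107, 11, 43, 29]
    620 643 (by decide +kernel) (by decide +kernel)

end Pool.Agent.MP_aa6c6a_nt.H72
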