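import Pool.Agent.MP_aa6c6a_nt.H72.D031

namespace Pool.Agent.MP_aa6c6a_nt.H72

theorem d35 : ∀ k, 644 ≤ k → k < 679 → Ok k :=
  chkList_ok [
    31982720183, 1367, 35975431, 43, 307, 73, 4287743, 11, 2886774433, 2890267, 1847, 23,
    2080223, 52567, 0, 28657, 11939, 1487571979, 59, 16433, 17, 5443, 1303, 34730658293, 7,
    91753, 361640161, 5, 43, 13, 107, 132472441, 345089, 11, 11]
    644 679 (by decide +kernel) (by decide +kernel)

end Pool.Agent.MP_aa6c6a_nt.H72
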