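import Pool.Agent.MP_aa6c6a_nt.H72.D032

namespace Pool.Agent.MP_aa6c6a_nt.H72

theorem d36 : ∀ k, 679 ≤ k → k < 688 → Ok k :=
  chkList_ok [
    0, 23813, 13560089, 7, 347, 102229, 6841, 23, 19]
    679 688 (by decide +kernel) (by decide +kernel)

end Pool.Agent.MP_aa6c6a_nt.H72
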