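import Pool.Agent.MP_aa6c6a_nt.H72.D033

namespace Pool.Agent.MP_aa6c6a_nt.H72

theorem d37 : ∀ k, 688 ≤ k → k < 724 → Ok k :=
  chkList_ok [
    0, 6551, 0, 563, 97103, 1949, 0, 64153, 19, 3203, 61, 1097, 499, 17, 107, 7, 0, 29, 19, 769,
    507079, 6193609, 23, 773, 13, 67, 107, 1837881629, 5, 11, 109, 1380259, 41, 25943, 59, 7687]
    688 724 (by decide +kernel) (by decide +kernel)

end Pool.Agent.MP_aa6c6a_nt.H72
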