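import Pool.Agent.MP_aa6c6a_nt.H72.D035

namespace Pool.Agent.MP_aa6c6a_nt.H72

theorem d39 : ∀ k, 725 ≤ k → k < 741 → Ok k :=
  chkList_ok [
    0, 53, 53, 31, 193, 107, 29, 53, 6353, 19, 499, 1151, 89, 7, 401, 59]
    725 741 (by decide +kernel) (by decide +kernel)

end Pool.Agent.MP_aa6c6a_nt.H72
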