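import Pool.Agent.MP_aa6c6a_nt.H72.D038

namespace Pool.Agent.MP_aa6c6a_nt.H72

theorem d42 : ∀ k, 746 ≤ k → k < 752 → Ok k :=
  chkList_ok [
    1489, 23, 941, 0, 48626219, 59]
    746 752 (by decide +kernel) (by decide +kernel)

end Pool.Agent.MP_aa6c6a_nt.H72
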