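import Pool.Agent.MP_aa6c6a_nt.H72.D039

namespace Pool.Agent.MP_aa6c6a_nt.H72

theorem d43 : ∀ k, 752 ≤ k → k < 766 → Ok k :=
  chkList_ok [
    0, 0, 1931, 13, 3119, 64301, 3279264733, 1913, 223, 11, 59, 17053, 0, 131]
    752 766 (by decide +kernel) (by decide +kernel)

end Pool.Agent.MP_aa6c6a_nt.H72
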