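import Pool.Agent.MP_aa6c6a_nt.H72.D040

namespace Pool.Agent.MP_aa6c6a_nt.H72

theorem d44 : ∀ k, 766 ≤ k → k < 779 → Ok k :=
  chkList_ok [
    0, 11, 4441, 17, 23, 31, 19, 7, 131, 2549, 11, 6761, 14369]
    766 779 (by decide +kernel) (by decide +kernel)

end Pool.Agent.MP_aa6c6a_nt.H72
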