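import Pool.Agent.MP_aa6c6a_nt.H72.D042

namespace Pool.Agent.MP_aa6c6a_nt.H72

theorem d46 : ∀ k, 780 ≤ k → k < 790 → Ok k :=
  chkList_ok [
    223, 0, 19, 48571, 293, 1567, 0, 51449, 409, 619159]
    780 790 (by decide +kernel) (by decide +kernel)

end Pool.Agent.MP_aa6c6a_nt.H72
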