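import Pool.Agent.MP_aa6c6a_nt.H72.D043

namespace Pool.Agent.MP_aa6c6a_nt.H72

theorem d47 : ∀ k, 790 ≤ k → k < 805 → Ok k :=
  chkList_ok [
    0, 5, 7589, 23, 7, 47, 0, 1123, 113, 647, 56393, 19, 359, 251, 79]
    790 805 (by decide +kernel) (by decide +kernel)

end Pool.Agent.MP_aa6c6a_nt.H72
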