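import Pool.Agent.MP_aa6c6a_nt.H72.D045

namespace Pool.Agent.MP_aa6c6a_nt.H72

theorem d49 : ∀ k, 806 ≤ k → k < 827 → Ok k :=
  chkList_ok [
    9001, 67, 0, 67, 0, 5, 53, 0, 149, 37, 29, 107, 179, 16317917657, 13, 359370889, 1553, 131,
    18691510001, 43, 881]
    806 827 (by decide +kernel) (by decide +kernel)

end Pool.Agent.MP_aa6c6a_nt.H72
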