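import Pool.Agent.MP_aa6c6a_nt.H72.D046

namespace Pool.Agent.MP_aa6c6a_nt.H72

theorem d50 : ∀ k, 827 ≤ k → k < 849 → Ok k :=
  chkList_ok [
    0, 1093, 19, 509867, 11, 8638234483, 11, 47, 359, 751, 953, 23, 73, 12443339, 1193, 761,
    157, 0, 2426894543, 13103, 29, 19]
    827 849 (by decide +kernel) (by decide +kernel)

end Pool.Agent.MP_aa6c6a_nt.H72
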