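import Pool.Agent.MP_aa6c6a_nt.H72.D048

namespace Pool.Agent.MP_aa6c6a_nt.H72

theorem d52 : ∀ k, 853 ≤ k → k < 884 → Ok k :=
  chkList_ok [
    0, 131, 563, 47917, 7, 14633, 7075853, 99793, 23, 390151, 59, 22853, 11, 140983, 85843, 13,
    44621, 172399, 5, 229, 5791, 599, 2267, 113, 107, 37, 9801645223, 3673, 13, 89, 80677]
    853 884 (by decide +kernel) (by decide +kernel)

end Pool.Agent.MP_aa6c6a_nt.H72
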