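import Pool.Agent.MP_aa6c6a_nt.H72.D049

namespace Pool.Agent.MP_aa6c6a_nt.H72

theorem d53 : ∀ k, 884 ≤ k → k < 917 → Ok k :=
  chkList_ok [
    301583, 17, 11, 11, 601, 31, 457, 7309, 7, 0, 13, 80240603, 97373, 83, 11, 137, 253853, 409,
    61, 149, 23189, 17, 13982057, 53, 631, 2029, 241, 23, 191, 19421, 23, 3096623, 0]
    884 917 (by decide +kernel) (by decide +kernel)

end Pool.Agent.MP_aa6c6a_nt.H72
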