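import Pool.Agent.MP_aa6c6a_nt.H72.D053

namespace Pool.Agent.MP_aa6c6a_nt.H72

theorem d57 : ∀ k, 924 ≤ k → k < 953 → Ok k :=
  chkList_ok [
    0, 5281, 31, 19, 593, 101, 43, 46567757, 1901, 2251, 19, 1601, 17, 83, 5657, 494651, 857,
    521, 11, 11, 9127, 31, 1795543, 337, 11, 395237807, 518831, 103, 11027]
    924 953 (by decide +kernel) (by decide +kernel)

end Pool.Agent.MP_aa6c6a_nt.H72
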