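import Pool.Agent.MP_aa6c6a_nt.H72.D055

namespace Pool.Agent.MP_aa6c6a_nt.H72

theorem d59 : ∀ k, 954 ≤ k → k < 1025 → Ok k :=
  chkList_ok [
    11, 7, 23827, 23, 1399, 13, 41512905647, 10429, 163, 547, 6163, 53, 887, 201731, 811, 1291,
    5009, 612407, 13, 211, 11, 89, 149, 19, 503, 61, 743, 11, 19, 12373, 1279, 23, 11, 11, 827,
    37, 7, 733, 29, 35257, 23, 17, 13597, 33754501111, 461, 251, 23, 487, 3061, 24836359841, 23,
    1871, 73, 572027, 137, 11, 0, 331, 467, 53503, 1663, 109, 83, 117681887, 197, 19, 99289, 17,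
    1723, 13627, 7753]
    954 1025 (by decide +kernel) (by decide +kernel)

end Pool.Agent.MP_aa6c6a_nt.H72
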