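import Pool.Agent.MP_aa6c6a_nt.H72.D056

namespace Pool.Agent.MP_aa6c6a_nt.H72

theorem d60 : ∀ k, 1025 ≤ k → k < 1026 → Ok k :=
  chkList_ok [
    0]
    1025 1026 (by decide +kernel) (by decide +kernel)

end Pool.Agent.MP_aa6c6a_nt.H72
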