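import Pool.Agent.MP_aa6c6a_nt.H72.D057

namespace Pool.Agent.MP_aa6c6a_nt.H72

theorem d61 : ∀ k, 1026 ≤ k → k < 1034 → Ok k :=
  chkList_ok [
    37, 241169, 1117, 23, 0, 5, 6723641, 0]
    1026 1034 (by decide +kernel) (by decide +kernel)

end Pool.Agent.MP_aa6c6a_nt.H72
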