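import Pool.Agent.MP_aa6c6a_nt.H72.D061

namespace Pool.Agent.MP_aa6c6a_nt.H72

theorem d65 : ∀ k, 1046 ≤ k → k < 1060 → Ok k :=
  chkList_ok [
    0, 2381, 32993, 23, 29, 5, 11, 1429, 0, 199, 51713, 19, 4815337, 0]
    1046 1060 (by decide +kernel) (by decide +kernel)

end Pool.Agent.MP_aa6c6a_nt.H72
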