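import Pool.Agent.MP_aa6c6a_nt.H72.D062

namespace Pool.Agent.MP_aa6c6a_nt.H72

theorem d66 : ∀ k, 1060 ≤ k → k < 1069 → Ok k :=
  chkList_ok [
    0, 30517, 10501, 1229, 1381, 991, 223, 239, 3011]
    1060 1069 (by decide +kernel) (by decide +kernel)

end Pool.Agent.MP_aa6c6a_nt.H72
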