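import Pool.Agent.MP_aa6c6a_nt.H72.D066

namespace Pool.Agent.MP_aa6c6a_nt.H72

theorem d70 : ∀ k, 1087 ≤ k → k < 1097 → Ok k :=
  chkList_ok [
    0, 199, 61, 163, 5, 107, 167, 65051599, 599, 0]
    1087 1097 (by decide +kernel) (by decide +kernel)

end Pool.Agent.MP_aa6c6a_nt.H72
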