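import Pool.Agent.MP_aa6c6a_nt.H72.D067

namespace Pool.Agent.MP_aa6c6a_nt.H72

theorem d71 : ∀ k, 1097 ≤ k → k < 1105 → Ok k :=
  chkList_ok [
    0, 8263, 69492893, 1193, 0, 129460777, 1020839, 2939]
    1097 1105 (by decide +kernel) (by decide +kernel)

end Pool.Agent.MP_aa6c6a_nt.H72
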