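import Pool.Agent.MP_aa6c6a_nt.H72.D069

namespace Pool.Agent.MP_aa6c6a_nt.H72

theorem d73 : ∀ k, 1106 ≤ k → k < 1115 → Ok k :=
  chkList_ok [
    11, 349, 29, 59, 151, 2804237, 31, 1787, 0]
    1106 1115 (by decide +kernel) (by decide +kernel)

end Pool.Agent.MP_aa6c6a_nt.H72
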