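import Pool.Agent.MP_aa6c6a_nt.H72.D071

namespace Pool.Agent.MP_aa6c6a_nt.H72

theorem d75 : ∀ k, 1116 ≤ k → k < 1127 → Ok k :=
  chkList_ok [
    1281523, 771245179, 11, 0, 47, 914443, 53, 42727, 103, 89, 0]
    1116 1127 (by decide +kernel) (by decide +kernel)

end Pool.Agent.MP_aa6c6a_nt.H72
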