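import Pool.Agent.MP_aa6c6a_nt.H72.D072

namespace Pool.Agent.MP_aa6c6a_nt.H72

theorem d76 : ∀ k, 1127 ≤ k → k < 1133 → Ok k :=
  chkList_ok [
    0, 125117, 2063, 7, 503, 41]
    1127 1133 (by decide +kernel) (by decide +kernel)

end Pool.Agent.MP_aa6c6a_nt.H72
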