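import Pool.Agent.MP_aa6c6a_nt.H72.D074

namespace Pool.Agent.MP_aa6c6a_nt.H72

theorem d78 : ∀ k, 1136 ≤ k → k < 1166 → Ok k :=
  chkList_ok [
    0, 8693, 2063, 11, 17, 13, 167, 10729, 29, 2011, 24889, 15331, 0, 0, 719, 5, 11, 167, 5227,
    11471, 5, 47, 2309, 4120141, 23, 11, 5393653, 11, 0, 7]
    1136 1166 (by decide +kernel) (by decide +kernel)

end Pool.Agent.MP_aa6c6a_nt.H72
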