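import Pool.Agent.MP_aa6c6a_nt.H72.D075

namespace Pool.Agent.MP_aa6c6a_nt.H72

theorem d79 : ∀ k, 1166 ≤ k → k < 1253 → Ok k :=
  chkList_ok [
    34413623, 107, 1873, 1319, 23, 19, 366961139, 29, 17, 149, 199, 841400101, 23, 89, 1987,
    401, 7349, 263, 86209, 56848747, 19, 71, 43, 7127, 647, 229, 18793, 23, 233, 1553, 1994897,
    3088961, 1246925089, 733, 19, 11, 235559, 421, 167, 19, 13, 487, 17, 83, 34637149609, 5,
    1298707981, 4697645273, 41, 13318611109, 11, 67, 188291, 307, 133073, 1321, 9127, 13, 29,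
    53, 449, 3154103, 71, 11, 0, 5, 101, 0, 503, 7, 0, 47, 75389, 54767, 4241, 5, 158832691, 19,
    169598327, 1547593, 103, 107, 277747, 509, 4507, 49853, 5879]
    1166 1253 (by decide +kernel) (by decide +kernel)

end Pool.Agent.MP_aa6c6a_nt.H72
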