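import Pool.Agent.MP_aa6c6a_nt.H72.D077

namespace Pool.Agent.MP_aa6c6a_nt.H72

theorem d81 : ∀ k, 1257 ≤ k → k < 1265 → Ok k :=
  chkList_ok [
    0, 1619, 16901, 11, 37, 47, 31, 1789]
    1257 1265 (by decide +kernel) (by decide +kernel)

end Pool.Agent.MP_aa6c6a_nt.H72
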