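import Pool.Agent.MP_aa6c6a_nt.H72.D078

namespace Pool.Agent.MP_aa6c6a_nt.H72

theorem d82 : ∀ k, 1265 ≤ k → k < 1282 → Ok k :=
  chkList_ok [
    0, 127, 1423, 20295727, 19, 23, 1033, 30449, 11, 1549, 23, 5, 3499, 1423, 5813, 1409806589,
    104870833]
    1265 1282 (by decide +kernel) (by decide +kernel)

end Pool.Agent.MP_aa6c6a_nt.H72
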