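import Pool.Agent.MP_aa6c6a_nt.H72.D079

namespace Pool.Agent.MP_aa6c6a_nt.H72

theorem d83 : ∀ k, 1282 ≤ k → k < 1332 → Ok k :=
  chkList_ok [
    0, 97, 26099316403, 37, 31, 884269, 1025153, 11, 631, 2083, 2887, 17, 41, 1361, 17, 6982957,
    7, 881, 373, 496365241, 0, 23, 0, 79, 112670431, 3947, 0, 12407440469, 127, 0, 53, 17,
    78277, 67, 181, 11, 39236369, 7, 467, 27632791, 233, 9391, 21347, 23, 545863, 11, 131, 1109,
    23, 5]
    1282 1332 (by decide +kernel) (by decide +kernel)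

end Pool.Agent.MP_aa6c6a_nt.H72
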