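import Pool.Agent.MP_aa6c6a_nt.H72.D080

namespace Pool.Agent.MP_aa6c6a_nt.H72

theorem d84 : ∀ k, 1332 ≤ k → k < 1371 → Ok k :=
  chkList_ok [
    0, 7, 163, 0, 5981, 1015392869, 11, 11, 63323609, 7757, 8037847, 2687, 17, 2963, 4007, 491,
    6173, 2659, 271, 5, 6491, 14713, 23, 11, 2377, 19, 743, 97, 653, 19, 5280703, 210403769, 0,
    127, 861089, 164826821, 20297, 41, 11]
    1332 1371 (by decide +kernel) (by decide +kernel)

end Pool.Agent.MP_aa6c6a_nt.H72
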