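import Pool.Agent.MP_aa6c6a_nt.H72.D081

namespace Pool.Agent.MP_aa6c6a_nt.H72

theorem d85 : ∀ k, 1371 ≤ k → k < 1408 → Ok k :=
  chkList_ok [
    0, 71, 37, 0, 7, 19, 823, 45197, 13, 45659, 11, 29710643, 83, 43, 23, 0, 3041, 67, 229,
    52804931, 5, 11273, 30293, 233, 1833487, 5, 0, 67, 11, 181, 691, 44851, 661, 673, 12111263,
    132247, 19391054681]
    1371 1408 (by decide +kernel) (by decide +kernel)

end Pool.Agent.MP_aa6c6a_nt.H72
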