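import Pool.Agent.MP_aa6c6a_nt.H72.D082

namespace Pool.Agent.MP_aa6c6a_nt.H72

theorem d86 : ∀ k, 1408 ≤ k → k < 1436 → Ok k :=
  chkList_ok [
    0, 101, 31, 8803, 79, 23, 11, 41, 11, 37, 2014423, 0, 8177957, 263, 0, 1010473, 0, 11, 277,
    13, 719, 81533, 227, 71, 0, 6959, 29, 719]
    1408 1436 (by decide +kernel) (by decide +kernel)

end Pool.Agent.MP_aa6c6a_nt.H72
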