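import Pool.Agent.MP_aa6c6a_nt.H72.D083

namespace Pool.Agent.MP_aa6c6a_nt.H72

theorem d87 : ∀ k, 1436 ≤ k → k < 1450 → Ok k :=
  chkList_ok [
    0, 23, 19, 39863, 0, 113, 167, 293, 98317, 7, 89, 0, 43, 17]
    1436 1450 (by decide +kernel) (by decide +kernel)

end Pool.Agent.MP_aa6c6a_nt.H72
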