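import Pool.Agent.MP_aa6c6a_nt.H72.D084

namespace Pool.Agent.MP_aa6c6a_nt.H72

theorem d88 : ∀ k, 1450 ≤ k → k < 1466 → Ok k :=
  chkList_ok [
    0, 5, 211, 199, 11, 29, 43, 0, 107, 71, 41, 499, 0, 14821, 230693, 19]
    1450 1466 (by decide +kernel) (by decide +kernel)

end Pool.Agent.MP_aa6c6a_nt.H72
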