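import Pool.Agent.MP_aa6c6a_nt.H72.D085

namespace Pool.Agent.MP_aa6c6a_nt.H72

theorem d89 : ∀ k, 1466 ≤ k → k < 1483 → Ok k :=
  chkList_ok [
    0, 57038591, 2243, 11, 43, 5, 5969597, 997, 263, 2141, 0, 919, 433, 347, 17, 161377, 13217]
    1466 1483 (by decide +kernel) (by decide +kernel)

end Pool.Agent.MP_aa6c6a_nt.H72
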