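import Pool.Agent.MP_aa6c6a_nt.H72.D086

namespace Pool.Agent.MP_aa6c6a_nt.H72

theorem d90 : ∀ k, 1483 ≤ k → k < 1520 → Ok k :=
  chkList_ok [
    0, 19, 12343, 11437, 7, 986659, 23, 345413, 23, 23, 11, 7, 163, 73, 133391, 191, 223,
    5223227, 7, 379, 31, 11, 23, 7757, 43, 7, 4013, 468707131, 915611, 331, 6121, 29, 79,
    42624088739, 29, 83, 17977]
    1483 1520 (by decide +kernel) (by decide +kernel)

end Pool.Agent.MP_aa6c6a_nt.H72
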