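import Pool.Agent.MP_aa6c6a_nt.H72.D088

namespace Pool.Agent.MP_aa6c6a_nt.H72

theorem d92 : ∀ k, 1525 ≤ k → k < 1545 → Ok k :=
  chkList_ok [
    0, 26699, 47, 37, 199, 132863, 5, 23, 607, 19, 13, 11, 23, 313, 61, 41, 29, 11, 29, 37]
    1525 1545 (by decide +kernel) (by decide +kernel)

end Pool.Agent.MP_aa6c6a_nt.H72
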