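import Pool.Agent.MP_aa6c6a_nt.H72.D089

namespace Pool.Agent.MP_aa6c6a_nt.H72

theorem d93 : ∀ k, 1545 ≤ k → k < 1553 → Ok k :=
  chkList_ok [
    0, 53, 373, 17, 359, 3301, 18665849849, 1949]
    1545 1553 (by decide +kernel) (by decide +kernel)

end Pool.Agent.MP_aa6c6a_nt.H72
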