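import Pool.Agent.MP_aa6c6a_nt.H72.D090

namespace Pool.Agent.MP_aa6c6a_nt.H72

theorem d94 : ∀ k, 1553 ≤ k → k < 1565 → Ok k :=
  chkList_ok [
    0, 1705141901, 23, 5, 69389, 11, 79, 23, 6827, 269, 1327, 97]
    1553 1565 (by decide +kernel) (by decide +kernel)

end Pool.Agent.MP_aa6c6a_nt.H72
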