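import Pool.Agent.MP_aa6c6a_nt.H72.D091

namespace Pool.Agent.MP_aa6c6a_nt.H72

theorem d95 : ∀ k, 1565 ≤ k → k < 1601 → Ok k :=
  chkList_ok [
    0, 74896313, 557, 17, 103, 11, 7, 109, 4470143, 199, 487, 103, 61, 385599293, 71, 127, 11,
    1123, 1063, 0, 7, 487, 43, 1069, 47, 109, 30649, 11, 67, 37, 197, 4093, 764131, 199, 17,
    7109]
    1565 1601 (by decide +kernel) (by decide +kernel)

end Pool.Agent.MP_aa6c6a_nt.H72
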