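import Pool.Agent.MP_aa6c6a_nt.H72.D092

namespace Pool.Agent.MP_aa6c6a_nt.H72

theorem d96 : ∀ k, 1601 ≤ k → k < 1610 → Ok k :=
  chkList_ok [
    0, 23, 11, 23, 3089, 257, 1849663, 11, 421]
    1601 1610 (by decide +kernel) (by decide +kernel)

end Pool.Agent.MP_aa6c6a_nt.H72
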