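import Pool.Agent.MP_aa6c6a_nt.H72.D093

namespace Pool.Agent.MP_aa6c6a_nt.H72

theorem d97 : ∀ k, 1610 ≤ k → k < 1631 → Ok k :=
  chkList_ok [
    0, 5998380301, 4898863, 61, 149, 397, 479, 29, 37, 1348229413, 383, 23, 1063, 0, 47, 2659,
    456923689, 933269, 809, 19, 19]
    1610 1631 (by decide +kernel) (by decide +kernel)

end Pool.Agent.MP_aa6c6a_nt.H72
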