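import Pool.Agent.MP_aa6c6a_nt.H72.D094

namespace Pool.Agent.MP_aa6c6a_nt.H72

theorem d98 : ∀ k, 1631 ≤ k → k < 1663 → Ok k :=
  chkList_ok [
    0, 2749, 163, 23917, 11, 5, 203213, 61, 83, 197, 11, 19, 2651344727, 40697887, 97861, 12799,
    0, 7, 4327277, 17246179, 251, 23, 67, 53, 37, 283, 1093, 11, 71, 29, 3119, 29]
    1631 1663 (by decide +kernel) (by decide +kernel)

end Pool.Agent.MP_aa6c6a_nt.H72
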