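import Pool.Agent.MP_aa6c6a_nt.H72.D095

namespace Pool.Agent.MP_aa6c6a_nt.H72

theorem d99 : ∀ k, 1663 ≤ k → k < 1673 → Ok k :=
  chkList_ok [
    0, 11789, 0, 94207, 9927917, 71, 487, 23, 229, 23735561]
    1663 1673 (by decide +kernel) (by decide +kernel)

end Pool.Agent.MP_aa6c6a_nt.H72
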