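import Pool.Agent.MP_aa6c6a_nt.H72.D097

namespace Pool.Agent.MP_aa6c6a_nt.H72

theorem d101 : ∀ k, 1680 ≤ k → k < 1729 → Ok k :=
  chkList_ok [
    0, 433, 84731, 244003, 17, 41, 0, 541, 1595952847, 31, 167, 44579, 7103, 3407, 3257, 0, 347,
    7, 101, 23, 593, 743, 0, 19, 0, 1489, 109, 137, 149, 463321, 179, 5, 0, 19, 457, 45131,
    142061, 165603211, 17, 3191, 67, 53, 23, 443, 11, 131, 875299, 67, 43]
    1680 1729 (by decide +kernel) (by decide +kernel)

end Pool.Agent.MP_aa6c6a_nt.H72
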