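import Pool.Agent.MP_aa6c6a_nt.H72.D098

namespace Pool.Agent.MP_aa6c6a_nt.H72

theorem d102 : ∀ k, 1729 ≤ k → k < 1735 → Ok k :=
  chkList_ok [
    0, 239, 252536143, 0, 4969, 11]
    1729 1735 (by decide +kernel) (by decide +kernel)

end Pool.Agent.MP_aa6c6a_nt.H72
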