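import Pool.Agent.MP_aa6c6a_nt.H72.D100

namespace Pool.Agent.MP_aa6c6a_nt.H72

theorem d104 : ∀ k, 1739 ≤ k → k < 1759 → Ok k :=
  chkList_ok [
    0, 307, 78713, 23, 23549, 23, 23, 21924091643, 43, 43, 8329, 71, 5, 12495761, 7, 8123,
    109033693, 5, 11, 764317]
    1739 1759 (by decide +kernel) (by decide +kernel)

end Pool.Agent.MP_aa6c6a_nt.H72
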