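import Pool.Agent.MP_aa6c6a_nt.H72.D101

namespace Pool.Agent.MP_aa6c6a_nt.H72

theorem d105 : ∀ k, 1759 ≤ k → k < 1773 → Ok k :=
  chkList_ok [
    0, 7, 221909, 11, 25439, 101, 13, 13630156429, 0, 47, 2803, 389, 131, 149]
    1759 1773 (by decide +kernel) (by decide +kernel)

end Pool.Agent.MP_aa6c6a_nt.H72
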