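import Pool.Agent.MP_aa6c6a_nt.H72.D102

namespace Pool.Agent.MP_aa6c6a_nt.H72

theorem d106 : ∀ k, 1773 ≤ k → k < 1787 → Ok k :=
  chkList_ok [
    0, 0, 2203771, 0, 0, 13, 28866151, 59, 7, 23, 149, 257903, 179, 6469919]
    1773 1787 (by decide +kernel) (by decide +kernel)

end Pool.Agent.MP_aa6c6a_nt.H72
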