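import Pool.Agent.MP_aa6c6a_nt.H72.D104

namespace Pool.Agent.MP_aa6c6a_nt.H72

theorem d108 : ∀ k, 1789 ≤ k → k < 1827 → Ok k :=
  chkList_ok [
    0, 31, 47, 197, 592895959, 19, 7, 994670359, 173, 19, 7434212491, 67, 967, 9794506879, 71,
    1470488207, 23, 11, 0, 1815449, 18199, 11, 379, 11, 167, 746749, 17404531, 409, 157,
    1810800653, 31, 271, 11, 1223, 7400807, 0, 373, 1039]
    1789 1827 (by decide +kernel) (by decide +kernel)

end Pool.Agent.MP_aa6c6a_nt.H72
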