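import Pool.Agent.MP_aa6c6a_nt.H72.D105

namespace Pool.Agent.MP_aa6c6a_nt.H72

theorem d109 : ∀ k, 1827 ≤ k → k < 1896 → Ok k :=
  chkList_ok [
    0, 43, 353, 76736411, 191, 907, 29, 11, 257, 67, 241, 0, 1579, 17, 239, 0, 107, 7, 647,
    4027, 139, 319849, 41, 11, 19, 839, 12289, 11, 227, 13, 19, 4391, 443, 1283, 42718927, 67,
    131, 53, 97, 53, 69601849, 0, 59, 19, 5, 2203, 23, 0, 1171, 5, 223, 83, 7, 6840941, 487, 13,
    2999, 5683, 89213, 0, 271, 157, 19, 73, 29, 43220267, 1011137, 19406599, 13]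
    1827 1896 (by decide +kernel) (by decide +kernel)

end Pool.Agent.MP_aa6c6a_nt.H72
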