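import Pool.Agent.MP_aa6c6a_nt.H72.D106

namespace Pool.Agent.MP_aa6c6a_nt.H72

theorem d110 : ∀ k, 1896 ≤ k → k < 1917 → Ok k :=
  chkList_ok [
    0, 1063, 599, 323478263, 7, 127, 19, 0, 227, 11, 5541397, 7, 0, 7691, 20441, 41, 0, 19, 31,
    47, 44939]
    1896 1917 (by decide +kernel) (by decide +kernel)

end Pool.Agent.MP_aa6c6a_nt.H72
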