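import Pool.Agent.MP_aa6c6a_nt.H72.D107

namespace Pool.Agent.MP_aa6c6a_nt.H72

theorem d111 : ∀ k, 1917 ≤ k → k < 1979 → Ok k :=
  chkList_ok [
    0, 181, 41, 11, 7, 150747217, 29, 1288691, 347, 89, 12433, 2137, 3678841, 862307, 5, 13669,
    11, 67, 599, 493082209, 10613, 0, 17, 173, 14251001, 23, 25951, 27773, 71, 23, 0, 383, 7,
    1669, 1543, 29, 59, 0, 233, 29, 101693, 223, 71, 89, 277, 1441841803, 2477, 101, 29, 11,
    433, 10459, 71, 3433, 47, 157769, 17, 200983, 3938990009, 107, 239, 803053]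
    1917 1979 (by decide +kernel) (by decide +kernel)

end Pool.Agent.MP_aa6c6a_nt.H72
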