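import Pool.Agent.MP_aa6c6a_nt.H72.D108

namespace Pool.Agent.MP_aa6c6a_nt.H72

theorem d112 : ∀ k, 1979 ≤ k → k < 1993 → Ok k :=
  chkList_ok [
    0, 929, 137, 246923, 521, 1427, 541, 1493, 11, 46760797, 19, 17, 5, 197]
    1979 1993 (by decide +kernel) (by decide +kernel)

end Pool.Agent.MP_aa6c6a_nt.H72
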