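import Pool.Agent.MP_aa6c6a_nt.H72.D110

namespace Pool.Agent.MP_aa6c6a_nt.H72

theorem d114 : ∀ k, 2000 ≤ k → k < 2033 → Ok k :=
  chkList_ok [
    0, 1049, 89, 13, 0, 277, 23, 42937, 103, 37, 19, 5, 1553129, 19373, 103183, 47, 0,
    33047897339, 0, 184969, 139, 1710197, 71, 454213, 17, 37, 19, 8247945191, 26830681, 23, 773,
    11, 41]
    2000 2033 (by decide +kernel) (by decide +kernel)

end Pool.Agent.MP_aa6c6a_nt.H72
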