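import Pool.Agent.MP_aa6c6a_nt.H72.D111

namespace Pool.Agent.MP_aa6c6a_nt.H72

theorem d115 : ∀ k, 2033 ≤ k → k < 2055 → Ok k :=
  chkList_ok [
    0, 211, 241, 1291, 116329, 263, 23, 61, 11, 2551, 43, 167, 19, 1637029, 4758043, 0, 149,
    463, 5, 443, 149, 0]
    2033 2055 (by decide +kernel) (by decide +kernel)

end Pool.Agent.MP_aa6c6a_nt.H72
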