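import Pool.Agent.MP_aa6c6a_nt.H72.D112

namespace Pool.Agent.MP_aa6c6a_nt.H72

theorem d116 : ∀ k, 2055 ≤ k → k < 2071 → Ok k :=
  chkList_ok [
    0, 0, 131, 39541, 11, 2713, 4674797, 389, 89, 11, 29311, 23, 0, 13, 359, 2273]
    2055 2071 (by decide +kernel) (by decide +kernel)

end Pool.Agent.MP_aa6c6a_nt.H72
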