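import Pool.Agent.MP_aa6c6a_nt.H72.D113

namespace Pool.Agent.MP_aa6c6a_nt.H72

theorem d117 : ∀ k, 2071 ≤ k → k < 2081 → Ok k :=
  chkList_ok [
    0, 2543, 439, 337, 408923, 16901, 503, 0, 14593, 1627]
    2071 2081 (by decide +kernel) (by decide +kernel)

end Pool.Agent.MP_aa6c6a_nt.H72
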