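import Pool.Agent.MP_aa6c6a_nt.H72.D115

namespace Pool.Agent.MP_aa6c6a_nt.H72

theorem d119 : ∀ k, 2086 ≤ k → k < 2138 → Ok k :=
  chkList_ok [
    0, 79, 107, 7, 249217, 43, 29129, 79, 3006763, 151, 43, 3023, 557789, 1427, 765043, 503,
    36743622233, 0, 0, 419, 1061, 23, 96643, 167, 29, 0, 1093, 1521643, 299857, 139571189, 5, 7,
    1619, 13477, 14341, 19, 6619, 402049, 20117, 71, 29, 23, 5763827, 11, 11, 5, 137, 655757,
    1019, 97, 4889, 163]
    2086 2138 (by decide +kernel) (by decide +kernel)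

end Pool.Agent.MP_aa6c6a_nt.H72
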