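import Pool.Agent.MP_aa6c6a_nt.H72.D116

namespace Pool.Agent.MP_aa6c6a_nt.H72

theorem d120 : ∀ k, 2138 ≤ k → k < 2153 → Ok k :=
  chkList_ok [
    0, 0, 19, 11, 509, 239, 43, 557, 4283, 0, 0, 103, 41, 11, 7]
    2138 2153 (by decide +kernel) (by decide +kernel)

end Pool.Agent.MP_aa6c6a_nt.H72
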