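import Pool.Agent.MP_aa6c6a_nt.H72.D117

namespace Pool.Agent.MP_aa6c6a_nt.H72

theorem d121 : ∀ k, 2153 ≤ k → k < 2183 → Ok k :=
  chkList_ok [
    0, 113, 19, 5, 53, 53, 7, 20161, 347, 263, 11, 11, 71, 28423513, 376811, 13, 1713277273, 97,
    5, 149, 7, 170846561, 241, 977, 0, 29723, 8087, 89, 29, 401]
    2153 2183 (by decide +kernel) (by decide +kernel)

end Pool.Agent.MP_aa6c6a_nt.H72
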