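import Pool.Agent.MP_aa6c6a_nt.H72.D118

namespace Pool.Agent.MP_aa6c6a_nt.H72

theorem d122 : ∀ k, 2183 ≤ k → k < 2215 → Ok k :=
  chkList_ok [
    0, 0, 31, 37, 484609, 0, 349, 103, 5, 32443, 19, 242797, 11, 134081, 1151, 1747, 864621743,
    223, 3343, 67, 733, 0, 281, 11, 13, 199, 29, 37, 17, 43, 59, 0]
    2183 2215 (by decide +kernel) (by decide +kernel)

end Pool.Agent.MP_aa6c6a_nt.H72
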