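import Pool.Agent.MP_aa6c6a_nt.H72.D119

namespace Pool.Agent.MP_aa6c6a_nt.H72

theorem d123 : ∀ k, 2215 ≤ k → k < 2227 → Ok k :=
  chkList_ok [
    0, 1297, 0, 2639999, 419, 43, 1879, 7, 1432979, 0, 1487989, 2706419]
    2215 2227 (by decide +kernel) (by decide +kernel)

end Pool.Agent.MP_aa6c6a_nt.H72
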