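import Pool.Agent.MP_aa6c6a_nt.H72.D120

namespace Pool.Agent.MP_aa6c6a_nt.H72

theorem d124 : ∀ k, 2227 ≤ k → k < 2265 → Ok k :=
  chkList_ok [
    0, 54721, 71, 329428733, 15039784271, 2251877, 20786179, 10007, 1097, 7, 229, 139, 9067, 0,
    256607723, 149, 15990043, 163, 17, 118633, 17879894257, 17, 10009, 19, 0, 0, 59, 613, 29,
    211, 7, 3607, 419687, 613, 11, 499, 11, 7]
    2227 2265 (by decide +kernel) (by decide +kernel)

end Pool.Agent.MP_aa6c6a_nt.H72
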