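import Pool.Agent.MP_aa6c6a_nt.H72.D121

namespace Pool.Agent.MP_aa6c6a_nt.H72

theorem d125 : ∀ k, 2265 ≤ k → k < 2291 → Ok k :=
  chkList_ok [
    0, 47363, 7933, 29, 19, 0, 16691027, 0, 509, 11, 919, 5, 366511, 30259, 2825759, 281,
    476868919, 4960981, 653, 11, 53, 53, 0, 364682653, 3907, 11]
    2265 2291 (by decide +kernel) (by decide +kernel)

end Pool.Agent.MP_aa6c6a_nt.H72
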