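import Pool.Agent.MP_aa6c6a_nt.H72.D123

namespace Pool.Agent.MP_aa6c6a_nt.H72

theorem d127 : ∀ k, 2297 ≤ k → k < 2317 → Ok k :=
  chkList_ok [
    0, 151, 7, 353, 9426892949, 13907, 191, 197, 0, 89, 107, 12256087, 251, 1487, 5, 1127612393,
    71, 233, 37, 599]
    2297 2317 (by decide +kernel) (by decide +kernel)

end Pool.Agent.MP_aa6c6a_nt.H72
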