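import Pool.Agent.MP_aa6c6a_nt.H72.D124

namespace Pool.Agent.MP_aa6c6a_nt.H72

theorem d128 : ∀ k, 2317 ≤ k → k < 2356 → Ok k :=
  chkList_ok [
    0, 23415832213, 241, 1319, 5, 2221, 2999, 29, 8291, 1193, 7, 967, 29, 19, 920167, 0, 17, 11,
    109, 67, 691, 2341, 479, 428221, 7, 37, 12226163231, 2184769, 0, 15423477263, 3623, 7, 19,
    11, 5, 0, 37381007, 269, 29]
    2317 2356 (by decide +kernel) (by decide +kernel)

end Pool.Agent.MP_aa6c6a_nt.H72
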