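import Pool.Agent.MP_aa6c6a_nt.H72.D125

namespace Pool.Agent.MP_aa6c6a_nt.H72

theorem d129 : ∀ k, 2356 ≤ k → k < 2423 → Ok k :=
  chkList_ok [
    0, 14633, 0, 107, 479, 97, 7, 823, 17, 4561, 0, 19036110403, 73, 2100173, 1613, 5, 6689,
    65551, 681536123, 53, 2966897, 0, 59, 435709, 13, 17, 29, 7, 17, 251, 2333, 977, 19, 11, 19,
    0, 1316260151, 1667, 1200000121, 4513, 5, 43, 424861, 1266241, 0, 17, 31, 67, 422369, 269,
    11, 4451, 149, 23, 75516289, 5, 0, 28643, 1051, 0, 59, 4133498137, 179, 3522651961, 41, 19,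
    53]
    2356 2423 (by decide +kernel) (by decide +kernel)

end Pool.Agent.MP_aa6c6a_nt.H72
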