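import Pool.Agent.MP_aa6c6a_nt.H72.D126

namespace Pool.Agent.MP_aa6c6a_nt.H72

theorem d130 : ∀ k, 2423 ≤ k → k < 2455 → Ok k :=
  chkList_ok [
    0, 9511, 7, 1996220207, 3643, 491, 389, 14897, 61, 0, 31, 23, 56377, 2727121, 3470741, 227,
    1301, 0, 21283, 0, 341647, 19, 6863, 17317, 43, 25576373, 656371, 0, 27271, 88321, 5150987,
    727]
    2423 2455 (by decide +kernel) (by decide +kernel)

end Pool.Agent.MP_aa6c6a_nt.H72
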