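import Pool.Agent.MP_aa6c6a_nt.H72.D127

namespace Pool.Agent.MP_aa6c6a_nt.H72

theorem d131 : ∀ k, 2455 ≤ k → k < 2465 → Ok k :=
  chkList_ok [
    0, 1109, 83, 1711207, 1429, 3621744157, 11, 0, 28867, 11340643]
    2455 2465 (by decide +kernel) (by decide +kernel)

end Pool.Agent.MP_aa6c6a_nt.H72
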