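import Pool.Agent.MP_aa6c6a_nt.H72.D128

namespace Pool.Agent.MP_aa6c6a_nt.H72

theorem d132 : ∀ k, 2465 ≤ k → k < 2507 → Ok k :=
  chkList_ok [
    0, 269, 7, 383956801, 29, 0, 5, 0, 83, 7, 0, 5, 11, 29, 43, 12892403, 6916812229, 19, 11, 0,
    1489, 269, 47, 19697, 23, 15541, 109, 463, 11, 1831, 7, 827, 53, 256019, 23, 37, 47207, 43,
    149, 23, 41, 37]
    2465 2507 (by decide +kernel) (by decide +kernel)

end Pool.Agent.MP_aa6c6a_nt.H72
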