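import Pool.Agent.MP_aa6c6a_nt.H72.D129

namespace Pool.Agent.MP_aa6c6a_nt.H72

theorem d133 : ∀ k, 2507 ≤ k → k < 2551 → Ok k :=
  chkList_ok [
    0, 127, 7, 7451, 1087, 0, 1459, 2347, 26670132893, 5, 0, 79, 24197, 19, 2953, 19, 97, 4831,
    27799169, 674347, 29, 2145769, 0, 357823, 233, 127, 2243, 17, 61, 11, 11, 87044077, 630017,
    4621, 8369021, 61, 29, 635087, 107, 37813, 73, 863, 509, 53]
    2507 2551 (by decide +kernel) (by decide +kernel)

end Pool.Agent.MP_aa6c6a_nt.H72
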