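import Pool.Agent.MP_aa6c6a_nt.H72.D130

namespace Pool.Agent.MP_aa6c6a_nt.H72

theorem d134 : ∀ k, 2551 ≤ k → k < 2561 → Ok k :=
  chkList_ok [
    0, 40129, 0, 631, 443, 593, 29, 115613, 11, 59]
    2551 2561 (by decide +kernel) (by decide +kernel)

end Pool.Agent.MP_aa6c6a_nt.H72
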