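import Pool.Agent.MP_aa6c6a_nt.H72.D131

namespace Pool.Agent.MP_aa6c6a_nt.H72

theorem d135 : ∀ k, 2561 ≤ k → k < 2599 → Ok k :=
  chkList_ok [
    0, 139, 659, 37, 163, 3022819, 47, 17, 11, 59, 11, 137401399, 0, 37, 953, 2237, 3853, 61493,
    117213377, 29339, 1153, 11, 313, 136963, 859, 1787, 28571, 0, 67, 11831, 5, 0, 7, 29, 19609,
    5, 13, 27084433]
    2561 2599 (by decide +kernel) (by decide +kernel)

end Pool.Agent.MP_aa6c6a_nt.H72
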