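import Pool.Agent.MP_aa6c6a_nt.H72.D132

namespace Pool.Agent.MP_aa6c6a_nt.H72

theorem d136 : ∀ k, 2599 ≤ k → k < 2645 → Ok k :=
  chkList_ok [
    0, 7, 37, 11, 11, 971, 54421, 53, 2003, 14431, 11, 13, 5, 83, 23, 0, 117133, 29, 37, 23, 0,
    0, 7, 479, 47, 22003, 43, 2293, 7070639, 41, 179827, 2055041, 506647, 33941, 353, 53, 7, 0,
    3919, 191, 11443, 107, 31, 164653, 29, 17]
    2599 2645 (by decide +kernel) (by decide +kernel)

end Pool.Agent.MP_aa6c6a_nt.H72
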