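import Pool.Agent.MP_aa6c6a_nt.H72.D133

namespace Pool.Agent.MP_aa6c6a_nt.H72

theorem d137 : ∀ k, 2645 ≤ k → k < 2661 → Ok k :=
  chkList_ok [
    0, 151523, 47, 30091, 12735773, 136769, 0, 29, 17, 19, 15361, 53, 11, 4021, 877, 0]
    2645 2661 (by decide +kernel) (by decide +kernel)

end Pool.Agent.MP_aa6c6a_nt.H72
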