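import Pool.Agent.MP_aa6c6a_nt.H72.D134

namespace Pool.Agent.MP_aa6c6a_nt.H72

theorem d138 : ∀ k, 2661 ≤ k → k < 2733 → Ok k :=
  chkList_ok [
    0, 5653, 7, 311, 59, 92387, 1307, 3105299413, 283, 11, 191436071, 29, 17, 641, 13, 0, 127,
    563, 8739637, 51246641, 29, 113, 48002838011, 7, 1279, 35244589, 761, 41, 36241, 2689,
    17489, 0, 31, 1303, 6131, 22199231, 2852970097, 7, 1217, 0, 11, 157, 3257491477, 0, 379, 0,
    53, 83, 2029786063, 23, 5, 2473, 0, 13, 317532139, 113, 0, 193, 7, 89, 107, 233, 67, 31,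
    23473, 10853, 79, 37, 19, 251, 23, 1998504527]
    2661 2733 (by decide +kernel) (by decide +kernel)

end Pool.Agent.MP_aa6c6a_nt.H72
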