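import Pool.Agent.MP_aa6c6a_nt.H72.D135

namespace Pool.Agent.MP_aa6c6a_nt.H72

theorem d139 : ∀ k, 2733 ≤ k → k < 2801 → Ok k :=
  chkList_ok [
    0, 56925199, 449, 43, 2081, 787, 1497803, 823903, 11, 6053, 6163, 19, 79, 11, 3169, 19, 31,
    9581401, 23, 94317491, 13, 7, 12583, 5, 0, 17, 26053, 58217, 59, 1399, 2213, 29, 0, 57413,
    1129511, 7, 59, 0, 5, 1669, 2963, 11, 1012079, 25847, 709, 9084204907, 32693, 181, 307,
    13716361847, 0, 796259, 389, 59, 5527, 3862039, 11, 264403, 5, 1374743, 1889, 1879, 349,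
    3049716149, 29, 20171981, 53, 53]
    2733 2801 (by decide +kernel) (by decide +kernel)

end Pool.Agent.MP_aa6c6a_nt.H72
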