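import Pool.Agent.MP_aa6c6a_nt.H72.D136

namespace Pool.Agent.MP_aa6c6a_nt.H72

theorem d140 : ∀ k, 2801 ≤ k → k < 2821 → Ok k :=
  chkList_ok [
    0, 448793, 103, 59, 881, 17, 0, 47, 173, 7, 0, 167, 53, 28843, 44021, 0, 31, 3581,
    520176499, 461]
    2801 2821 (by decide +kernel) (by decide +kernel)

end Pool.Agent.MP_aa6c6a_nt.H72
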