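import Pool.Agent.MP_aa6c6a_nt.H72.D137

namespace Pool.Agent.MP_aa6c6a_nt.H72

theorem d141 : ∀ k, 2821 ≤ k → k < 2870 → Ok k :=
  chkList_ok [
    0, 0, 17, 6138149207, 23, 23, 0, 197, 2111, 3793, 1091, 562273, 19, 67, 83, 9613, 0,
    1471133, 19, 17, 2556234689, 191, 539155021, 31, 7, 479, 29, 6701, 107, 0, 5, 7, 17025131,
    269, 761, 229, 11, 727, 59221, 17, 4019, 19, 9857, 21701, 0, 67, 349, 31883, 1062343]
    2821 2870 (by decide +kernel) (by decide +kernel)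

end Pool.Agent.MP_aa6c6a_nt.H72
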