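import Pool.Agent.MP_aa6c6a_nt.H72.D138

namespace Pool.Agent.MP_aa6c6a_nt.H72

theorem d142 : ∀ k, 2870 ≤ k → k < 2969 → Ok k :=
  chkList_ok [
    0, 2581669, 421, 163, 2777, 17, 3691, 19, 9337619, 11, 107, 476911, 19, 43, 0, 353, 397,
    267893, 0, 11, 1783, 5, 23, 241, 541, 374893, 13, 14149, 31, 11, 163, 23983307, 53, 2341,
    193, 59, 269, 0, 23, 577, 787, 5, 278981, 387313, 59, 41, 277, 1489, 23, 19, 0, 599, 821,
    67, 59, 17, 137, 83, 241, 452629, 499, 61, 11, 0, 41, 103, 5351, 31723, 251, 11, 0, 1571,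
    113, 761, 4217, 317, 251, 11801, 109, 1307, 167, 83, 53, 19, 2377, 0, 5, 7, 23, 167746861,
    7879, 11, 1067862307, 349, 157, 430873, 42461, 0, 238415227]
    2870 2969 (by decide +kernel) (by decide +kernel)

end Pool.Agent.MP_aa6c6a_nt.H72
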