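import Pool.Agent.MP_aa6c6a_nt.H72.D139

namespace Pool.Agent.MP_aa6c6a_nt.H72

theorem d143 : ∀ k, 2969 ≤ k → k < 3029 → Ok k :=
  chkList_ok [
    0, 439, 37, 19, 0, 0, 1913, 1051, 41, 139, 0, 28635031, 49620143, 821, 223441, 457, 499,
    1031, 13, 11, 211, 6217, 151, 7, 33113, 43, 19, 5, 2978560111, 19, 97, 0, 3148333, 17401,
    8006893, 13, 71, 16069, 960306343, 9343, 509, 859, 127, 401, 7, 200723, 19, 11, 239, 0, 761,
    11, 29, 619, 23, 37, 0, 13, 1201, 1453]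
    2969 3029 (by decide +kernel) (by decide +kernel)

end Pool.Agent.MP_aa6c6a_nt.H72
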