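import Pool.Agent.MP_aa6c6a_nt.H72.D140

namespace Pool.Agent.MP_aa6c6a_nt.H72

theorem d144 : ∀ k, 3029 ≤ k → k < 3089 → Ok k :=
  chkList_ok [
    0, 63853, 0, 11, 0, 1979, 390289, 286499, 1459, 6563, 14826731, 0, 6126664363, 107, 11, 11,
    1163, 163, 101, 6317, 82997, 29, 59, 13, 23, 24247, 7, 16613389231, 4909, 155399, 977, 11,
    17, 866003, 354097, 131, 701, 11, 19, 32755318171, 0, 0, 11, 28149967, 17086543, 174257,
    8893, 5, 216373, 13, 29, 577, 17, 60161, 7, 47, 41, 19, 11, 10477]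
    3029 3089 (by decide +kernel) (by decide +kernel)

end Pool.Agent.MP_aa6c6a_nt.H72
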