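import Pool.Agent.MP_aa6c6a_nt.H72.D141

namespace Pool.Agent.MP_aa6c6a_nt.H72

theorem d145 : ∀ k, 3089 ≤ k → k < 3163 → Ok k :=
  chkList_ok [
    0, 83, 0, 257, 1959090271, 277393789, 13, 0, 323467, 37, 68443, 33914219, 23, 147514799,
    229, 7, 97, 7283, 101, 163, 5179513, 0, 179623, 59, 277, 61, 31, 17083879433, 532919, 1951,
    73939, 2802062261, 2243, 179, 149, 79, 1109, 11, 1733, 211, 17, 11, 167, 139, 139, 0, 173,
    113, 677, 29, 7, 47, 0, 11, 11, 53, 397, 7, 0, 251, 277, 585117853, 5, 61, 11, 107, 0,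
    398863, 129917, 859, 61, 7, 456713479, 19]
    3089 3163 (by decide +kernel) (by decide +kernel)

end Pool.Agent.MP_aa6c6a_nt.H72
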