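import Pool.Agent.MP_aa6c6a_nt.H72.D142

namespace Pool.Agent.MP_aa6c6a_nt.H72

theorem d146 : ∀ k, 3163 ≤ k → k < 3262 → Ok k :=
  chkList_ok [
    0, 47, 23, 29, 7, 47, 13, 29, 9133, 37, 41, 3727, 79, 48150752711, 31, 43, 103, 41, 11,
    733177, 5569, 239, 197, 53, 47, 47, 0, 229, 5, 3581, 37, 1619, 0, 29, 53, 1289, 79, 137,
    101, 41, 0, 2451781, 53, 929, 0, 31, 7, 229, 5, 263, 113, 11, 107, 17737, 0, 2938738499, 19,
    337, 32986999, 37, 7, 29, 10456637, 324428479, 43, 0, 11, 11, 0, 19, 181, 71, 3491, 5,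
    240271, 127, 712333217, 11, 911, 271, 41, 465893, 15497, 0, 61, 17, 4933, 1277873309, 5,
    41269, 541700267, 29, 0, 1163, 26141, 67, 19639681, 2179, 311]
    3163 3262 (by decide +kernel) (by decide +kernel)

end Pool.Agent.MP_aa6c6a_nt.H72
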