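import Pool.Agent.MP_aa6c6a_nt.H72.D143

namespace Pool.Agent.MP_aa6c6a_nt.H72

theorem d147 : ∀ k, 3262 ≤ k → k < 3372 → Ok k :=
  chkList_ok [
    0, 59, 13, 17, 47, 37, 30559, 11, 113, 5, 8741, 11, 15511, 0, 227, 1009, 31, 1949, 11, 271,
    29, 11344427, 29, 32657887, 1069921, 0, 89597, 83243, 53, 83, 59, 0, 191, 179, 79, 48313,
    31, 79423, 397, 31, 139, 137, 0, 34281697, 0, 38891, 19433, 0, 499, 293, 29, 3541, 7, 167,
    503, 1834034459, 1657, 196081, 179, 19, 173, 23, 1097, 293, 4957, 1381, 7, 151241, 11, 0,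
    2543, 17, 31, 208441, 0, 292864577, 13, 149, 23, 37, 7, 42929, 2411, 814003, 11, 142001089,
    75514499, 7, 17, 0, 786703, 17, 23, 29, 5, 29, 1823, 179, 229, 79, 12619, 83, 64577, 19,
    40658561, 72053, 4789, 61, 167, 25127]
    3262 3372 (by decide +kernel) (by decide +kernel)

end Pool.Agent.MP_aa6c6a_nt.H72
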