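import Pool.Agent.MP_aa6c6a_nt.H72.D144

namespace Pool.Agent.MP_aa6c6a_nt.H72

theorem d148 : ∀ k, 3372 ≤ k → k < 3585 → Ok k :=
  chkList_ok [
    0, 28773001, 89, 1016067331, 53, 7, 89, 167, 0, 0, 61, 113, 11, 32065063, 59, 9307633, 163,
    79, 11, 5, 229, 61031, 31, 607, 61, 19, 277, 211, 761, 387742463, 29, 79, 1913, 1137817,
    15973, 11, 981653, 53, 5215303, 2257693, 7, 4937, 131, 191, 11, 2161, 11, 17, 383, 17, 0,
    271, 23, 31, 41, 4603, 1162277, 227, 1439, 5, 19, 7, 181, 5776871, 5, 769, 83, 829, 7,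
    1767833, 83, 17, 859, 3109, 60404863, 7, 0, 91631, 26717849, 19, 20753, 72353, 30951544543,
    29, 132961, 131, 0, 939007, 336206573, 83, 11, 487, 0, 0, 919, 73, 1783, 17, 19, 6709, 17,
    11, 43767677, 283, 199, 532757, 331, 1021, 17159143, 8101, 65677, 0, 11, 60776641, 0, 3491,
    8887, 41, 23, 5, 19, 29, 0, 661, 263, 86559127, 0, 53, 11, 0, 71, 7, 101, 1973, 23, 53, 19,
    127, 7, 11, 0, 71, 3056789, 0, 47, 22328077, 61, 9419, 71, 59, 0, 0, 7, 63419, 10211, 48857,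
    0, 23, 157, 71, 81677, 13, 74323, 97, 19, 167, 53, 1409987311, 28517, 101, 29, 9221, 1049,
    7, 19, 19, 151, 11, 431, 5, 239, 43, 347, 14887, 103, 53, 1327, 7, 29, 0, 23, 2341, 199, 19,
    7, 787, 53, 9689, 250583, 5, 29, 223, 281, 6173, 11173, 11, 6361, 227, 23, 11, 14801659, 0,
    83]
    3372 3585 (by decide +kernel) (by decide +kernel)

end Pool.Agent.MP_aa6c6a_nt.H72
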