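/-! Kernel-friendly checkers (no Mathlib import, so that the data files load fast). -/

namespace Pool.Agent.MP_aa6c6a_nt.H72

/-- Force the evaluation of `r` before continuing with `f`. -/
@[inline] def force (r : Nat) (f : Nat → Nat) : Nat :=
  Nat.rec (f 0) (fun r' _ => f (Nat.succ r')) r

/-- One modular squaring. -/
def sq (N r : Nat) : Nat := Nat.mod (Nat.pow r 2) N

/-- Eight modular squarings, then multiplication by `2 ^ c`. -/
def step8 (N r c : Nat) : Nat :=
  Nat.mod (Nat.shiftLeft (Nat.pow (sq N (sq N (sq N (sq N (sq N (sq N (sq N r))))))) 2) c) N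

/-- Left-to-right exponentiation over the `i` low bytes of `w`. -/
def inner (N w : Nat) (i : Nat) : Nat → Nat :=
  Nat.rec (fun r => r)
    (fun i ih r => force (step8 N r (Nat.mod (Nat.shiftRight w (Nat.mul 8 i)) 256)) ih) i

/-- Left-to-right exponentiation over the `i` low blocks of 256 bits of `e`. -/
def outer (N e : Nat) (i : Nat) : Nat → Nat :=
  Nat.rec (fun r => r)
    (fun i ih r => force (Nat.mod (Nat.shiftRight e (Nat.mul 256 i)) (Nat.pow 2 256)) fun w =>
      force (inner N w 32 r) ih) i

/-- `2 ^ e % N`. -/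
def pow2Mod (N e : Nat) : Nat := outer N e (Nat.succ (Nat.div (Nat.log2 e) 256)) 1

/-- A divisor of `n` found by trial division from `d` on. -/
def mf (n : Nat) (fuel : Nat) : Nat → Nat :=
  Nat.rec (fun _ => n)
    (fun _ ih d => cond (Nat.ble (Nat.mul d d) n)
      (cond (Nat.beq (Nat.mod n d) 0) d (force (Nat.succ d) ih)) n) fuel

/-- Euler's function for small arguments. -/
def phi (fuel : Nat) : Nat → Nat :=
  Nat.rec (fun _ => 0)
    (fun _ ih n => cond (Nat.ble n 1) n
      (force (mf n 100 2) fun p => force (Nat.div n p) fun m =>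
        Nat.mul (cond (Nat.beq (Nat.mod m p) 0) p (Nat.pred p)) (ih m))) fuel

/-- Compositeness test for `N`: `p` is a proper factor, or `p = 0` and the Fermat test fails. -/
def comp (N p : Nat) : Nat :=
  cond (Nat.beq p 0)
    (cond (Nat.ble N 2) 0 (cond (Nat.beq (Nat.mod (pow2Mod N (Nat.pred N)) N) 1) 0 1))
    (cond (Nat.ble p 1) 0 (cond (Nat.ble N p) 0 (cond (Nat.beq (Nat.mod N p) 0) 1 0)))

/-- The test for one value of `k`. -/
def chk (k p : Nat) : Nat :=
  force (Nat.add (Nat.pow (Nat.succ k) (phi 14 (Nat.sub 4722 k))) k) fun N => comp N p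

/-- The test for consecutive values of `k`. -/
noncomputable def chkList (ps : List Nat) : Nat → Bool :=
  List.rec (fun _ => true)
    (fun p _ ih k => cond (Nat.beq (chk k p) 1) (ih (Nat.succ k)) false) ps

/-- Gluing two verified ranges. -/
theorem glue {P : Nat → Prop} {a b c : Nat} (h1 : ∀ k, a ≤ k → k < b → P k)
    (h2 : ∀ k, b ≤ k → k < c → P k) : ∀ k, a ≤ k → k < c → P k :=
  fun k ha hc => (Nat.lt_or_ge k b).elim (fun h => h1 k ha h) (fun h => h2 k h hc)

/-- The value `k` has a certificate. -/
def Ok (k : Nat) : Prop := ∃ p, chk k p = 1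

theorem chkList_ok (ps : List Nat) : ∀ (a b : Nat), chkList ps a = true → b = a + ps.length →
    ∀ k, a ≤ k → k < b → Ok k := by
  induction ps with
  | nil => intro a b _ hb k h1 h2; simp at hb; omega
  | cons p ps ih =>
    intro a b h hb k h1 h2
    have h' : cond (Nat.beq (chk a p) 1) (chkList ps (Nat.succ a)) false = true := h
    cases hc : Nat.beq (chk a p) 1 with
    | false => rw [hc] at h'; exact absurd h' (by simp)
    | true =>
      rw [hc] at h'
      by_cases hk : k = a
      · subst hk; exact ⟨p, Nat.eq_of_beq_eq_true hc⟩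
      · refine ih (Nat.succ a) b h' ?_ k (by omega) h2
        rw [hb, List.length_cons]; omega

end Pool.Agent.MP_aa6c6a_nt.H72
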