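import Mathlib
import Pool.Agent.MP_aa6c6a_nt.H72.Defs

/-! Soundness of the checkers. -/

namespace Pool.Agent.MP_aa6c6a_nt.H72

lemma force_eq (r : ℕ) (f : ℕ → ℕ) : force r f = f r := by cases r <;> rfl

lemma sq_mod {N r a : ℕ} (h : r ≡ 2 ^ a [MOD N]) : sq N r ≡ 2 ^ (2 * a) [MOD N] := by
  have : sq N r = r ^ 2 % N := rfl
  rw [this, mul_comm, pow_mul]
  exact (Nat.mod_modEq _ _).trans (h.pow 2)

lemma step8_mod {N r a : ℕ} (c : ℕ) (h : r ≡ 2 ^ a [MOD N]) :
    step8 N r c ≡ 2 ^ (256 * a + c) [MOD N] := by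
  have h1 := (sq_mod (sq_mod (sq_mod (sq_mod (sq_mod (sq_mod (sq_mod h))))))).pow 2
  have : step8 N r c = ((sq N (sq N (sq N (sq N (sq N (sq N (sq N r))))))) ^ 2) <<< c % N := rfl
  rw [this, Nat.shiftLeft_eq, pow_add]
  refine (Nat.mod_modEq _ _).trans (Nat.ModEq.mul_right _ ?_)
  rw [← pow_mul] at h1
  convert h1 using 2
  ring

lemma inner_mod (N w : ℕ) (i : ℕ) : ∀ r a : ℕ, r ≡ 2 ^ a [MOD N] →
    inner N w i r ≡ 2 ^ (256 ^ i * a + w % 256 ^ i) [MOD N] := by
  induction i with
  | zero => intro r a h; simpa [inner, Nat.mod_one] using h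
  | succ i ih =>
    intro r a h
    have : inner N w (i + 1) r = force (step8 N r ((w >>> (8 * i)) % 256)) (inner N w i) := rfl
    rw [this, force_eq]
    have h1 := ih _ _ (step8_mod ((w >>> (8 * i)) % 256) h)
    convert h1 using 2
    rw [Nat.shiftRight_eq_div_pow, pow_mul, Nat.mod_pow_succ]
    norm_num
    ring

lemma outer_mod (N e : ℕ) (i : ℕ) : ∀ r a : ℕ, r ≡ 2 ^ a [MOD N] →
    outer N e i r ≡ 2 ^ ((2 ^ 256) ^ i * a + e % (2 ^ 256) ^ i) [MOD N] := by
  induction i with
  | zero => intro r a h; simpa [outer, Nat.mod_one] using h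
  | succ i ih =>
    intro r a h
    have : outer N e (i + 1) r = force ((e >>> (256 * i)) % 2 ^ 256) fun w =>
      force (inner N w 32 r) (outer N e i) := rfl
    rw [this, force_eq, force_eq]
    have h1 := ih _ _ (inner_mod N ((e >>> (256 * i)) % 2 ^ 256) 32 r a h)
    have h2 : (256 : ℕ) ^ 32 = 2 ^ 256 := by norm_num
    rw [h2, Nat.mod_mod] at h1
    convert h1 using 2
    rw [Nat.shiftRight_eq_div_pow, pow_mul, Nat.mod_pow_succ]
    generalize (2 : ℕ) ^ 256 = B
    ring

lemma pow2Mod_mod (N e : ℕ) : pow2Mod N e ≡ 2 ^ e [MOD N] := by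
  have h := outer_mod N e (Nat.log2 e / 256 + 1) 1 0 (by simp [Nat.ModEq])
  have h1 : e < (2 ^ 256) ^ (Nat.log2 e / 256 + 1) := by
    rw [← pow_mul]
    refine Nat.lt_log2_self.trans_le (Nat.pow_le_pow_right (by norm_num) ?_)
    omega
  rw [mul_zero, zero_add, Nat.mod_eq_of_lt h1] at h
  exact h

lemma mf_eq {n : ℕ} (hn : 2 ≤ n) (fuel : ℕ) : ∀ d : ℕ, 2 ≤ d → d ≤ n.minFac →
    n < (d + fuel) ^ 2 → mf n fuel d = n.minFac := by
  have key : ∀ d : ℕ, d ≤ n.minFac → n < d ^ 2 → n = n.minFac := by
    intro d hd hlt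
    by_contra hne
    have hp : ¬ n.Prime := fun hp => hne hp.minFac_eq.symm
    have h1 := Nat.minFac_sq_le_self (by omega) hp
    have h2 : d ^ 2 ≤ n.minFac ^ 2 := Nat.pow_le_pow_left hd 2
    omega
  induction fuel with
  | zero => intro d _ hd hlt; exact key d hd hlt
  | succ fuel ih =>
    intro d h2 hd hlt
    have : mf n (fuel + 1) d = cond (Nat.ble (d * d) n)
      (cond (Nat.beq (n % d) 0) d (force (d + 1) (mf n fuel))) n := rfl
    rw [this, force_eq]
    cases h1 : Nat.ble (d * d) n with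
    | false =>
      have : ¬ d * d ≤ n := fun h => by rw [Nat.ble_eq.mpr h] at h1; exact absurd h1 (by simp)
      exact key d hd (by rw [pow_two]; omega)
    | true =>
      cases h3 : Nat.beq (n % d) 0 with
      | true =>
        have h4 : d ∣ n := Nat.dvd_of_mod_eq_zero (Nat.eq_of_beq_eq_true h3)
        exact le_antisymm hd (Nat.minFac_le_of_dvd h2 h4)
      | false =>
        have h4 : n % d ≠ 0 := Nat.ne_of_beq_eq_false h3
        refine ih (d + 1) (by omega) ?_ (by rw [add_assoc, add_comm 1]; exact hlt)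
        rcases hd.lt_or_eq with h5 | h5
        · exact h5
        · exact absurd (Nat.mod_eq_zero_of_dvd (h5 ▸ Nat.minFac_dvd n)) h4

lemma phi_eq (fuel : ℕ) : ∀ n : ℕ, n < 2 ^ fuel → n < 10000 → phi fuel n = n.totient := by
  induction fuel with
  | zero =>
    intro n h _
    have : n = 0 := by omega
    subst this; rfl
  | succ fuel ih =>
    intro n h h'
    have : phi (fuel + 1) n = cond (Nat.ble n 1) n
      (force (mf n 100 2) fun p => force (n / p) fun m =>
        (cond (Nat.beq (m % p) 0) p (p - 1)) * (phi fuel m)) := rfl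
    rw [this, force_eq, force_eq]
    cases h1 : Nat.ble n 1 with
    | true =>
      have h2 : n ≤ 1 := Nat.ble_eq.mp h1
      interval_cases n <;> rfl
    | false =>
      have h2 : 2 ≤ n := by
        by_contra h3
        rw [Nat.ble_eq.mpr (by omega : n ≤ 1)] at h1; exact absurd h1 (by simp)
      have hp : n.minFac.Prime := Nat.minFac_prime (by omega)
      rw [mf_eq h2 100 2 le_rfl hp.two_le (by omega)]
      have h3 : n = n.minFac * (n / n.minFac) := (Nat.mul_div_cancel' (Nat.minFac_dvd n)).symm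
      have h4 : n / n.minFac ≤ n / 2 := Nat.div_le_div_left hp.two_le (by norm_num)
      have h5 := ih (n / n.minFac) (by rw [pow_succ] at h; omega) (by omega)
      rw [cond_false, h5]
      conv_rhs => rw [h3]
      cases h6 : Nat.beq (n / n.minFac % n.minFac) 0 with
      | true =>
        rw [Nat.totient_mul_of_prime_of_dvd hp
          (Nat.dvd_of_mod_eq_zero (Nat.eq_of_beq_eq_true h6)), cond_true]
      | false =>
        rw [Nat.totient_mul_of_prime_of_not_dvd hp
          (fun h7 => Nat.ne_of_beq_eq_false h6 (Nat.mod_eq_zero_of_dvd h7)), cond_false]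

lemma comp_sound {N p : ℕ} (h : comp N p = 1) : ¬ N.Prime := by
  intro hN
  unfold comp at h
  cases h0 : Nat.beq p 0 with
  | true =>
    rw [h0, cond_true] at h
    cases h1 : Nat.ble N 2 with
    | true => rw [h1] at h; exact absurd h (by simp)
    | false =>
      have h2 : 2 < N := by
        by_contra h3
        rw [Nat.ble_eq.mpr (by omega : N ≤ 2)] at h1; exact absurd h1 (by simp)
      have h3 : Nat.Coprime 2 N := (Nat.coprime_primes Nat.prime_two hN).2 (by omega)
      have h4 : 2 ^ (N - 1) ≡ 1 [MOD N] := by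
        have := Nat.ModEq.pow_totient h3
        rwa [Nat.totient_prime hN] at this
      have h5 : pow2Mod N (N - 1) % N = 1 := by
        have := (pow2Mod_mod N (N - 1)).trans h4
        rw [Nat.ModEq, Nat.mod_eq_of_lt (by omega : 1 < N)] at this
        exact this
      have h6 : Nat.beq (Nat.mod (pow2Mod N (Nat.pred N)) N) 1 = true := Nat.beq_eq.mpr h5
      rw [h1, h6] at h
      exact absurd h (by simp)
  | false =>
    rw [h0, cond_false] at h
    cases h1 : Nat.ble p 1 with
    | true => rw [h1] at h; exact absurd h (by simp)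
    | false =>
      cases h2 : Nat.ble N p with
      | true => rw [h1, h2] at h; exact absurd h (by simp)
      | false =>
        cases h3 : Nat.beq (Nat.mod N p) 0 with
        | false => rw [h1, h2, h3] at h; exact absurd h (by simp)
        | true =>
          have h4 : p ∣ N := Nat.dvd_of_mod_eq_zero (Nat.eq_of_beq_eq_true h3)
          rcases (Nat.dvd_prime hN).1 h4 with h5 | h5
          · rw [Nat.ble_eq.mpr h5.le] at h1; exact absurd h1 (by simp)
          · rw [Nat.ble_eq.mpr h5.ge] at h2; exact absurd h2 (by simp)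

lemma ok_sound {k : ℕ} (h : Ok k) : ¬ ((k + 1) ^ (4722 - k).totient + k).Prime := by
  obtain ⟨p, hp⟩ := h
  have : chk k p = force ((k + 1) ^ phi 14 (4722 - k) + k) fun N => comp N p := rfl
  rw [this, force_eq, phi_eq 14 _ (by omega) (by omega)] at hp
  exact comp_sound hp

end Pool.Agent.MP_aa6c6a_nt.H72
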